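import Mathlib
import Pool.Agent.TH225.OC.Cont
import Pool.Agent.TH225.OC.ClA

/-!
A closed subgroup `A` of `SL(4, ℝ)`, isomorphic to `ℝ²`, all of whose nontrivial elements are of
class-`𝒜`, of higher rank in every quotient of `SL₄` by a proper normal `ℚ`-subgroup, and a point
`x` of `SL(4, ℝ)/SL(4, ℤ)` such that the orbit `A.x` is not dense and the closure of `A.x` is not
contained in the union of `A.x` and of countably many sets `g[𝕃(ℝ)]`, with `𝕃` a proper
`ℚ`-subgroup of `SL₄`.
-/

set_option autoImplicit false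

namespace Pool.Agent.Results.MP_e7dd50_an.NonHomogeneousLimit

open Pool.Agent.TH225.OC

theorem result : ∃ (A : Subgroup G) (x : X),
    IsClosed (A : Set G) ∧
    (∀ a ∈ A, a ≠ 1 → IsClassA a) ∧
    (∀ (H : QSubgroup) [H.grp.Normal], H.Proper →
      IsHigherRank (A.map (QuotientGroup.mk' H.real))) ∧
    ¬ Dense (orb A x) ∧
    ∀ (ι : Type) [Countable ι] (L : ι → QSubgroup) (g : ι → G), (∀ i, (L i).Proper) →
      ¬ closure (orb A x) ⊆ orb A x ∪ ⋃ i, coset (g i) (L i) :=
  ⟨Pool.Agent.TH225.OC.A, x0, A_closed, fun _ ha h1 => classA ha h1,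
    fun H _ hH => higherRank H hH, orb_not_dense, fun _ _ L g hL => not_subset L g hL⟩

end Pool.Agent.Results.MP_e7dd50_an.NonHomogeneousLimit
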